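import Mathlib

namespace Pool.Agent.Results.MP_dceaed_al.Bounded

open Quaternion

/-- nonstandard involutions of the real quaternions -/
def Nonstandard (φ : ℍ[ℝ] →ₗ[ℝ] ℍ[ℝ]) : Prop :=
  (∀ x y, φ (x * y) = φ y * φ x) ∧ (∀ x, φ (φ x) = x) ∧ ∃ x, φ x ≠ star x

/-- the `φ`-numerical range -/
def W {n : ℕ} (φ : ℍ[ℝ] → ℍ[ℝ]) (α : ℍ[ℝ]) (A : Matrix (Fin n) (Fin n) ℍ[ℝ]) : Set ℍ[ℝ] :=
  {w | ∃ x : Fin n → ℍ[ℝ], ∑ p, φ (x p) * x p = α ∧ w = ∑ p, ∑ r, φ (x p) * A p r * x r}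

theorem unit_of_pure (u : ℍ[ℝ]) (h0 : u ≠ 0) (h : star u = -u) :
    (‖u‖⁻¹ • u) * (‖u‖⁻¹ • u) = -1 := by
  have h1 := star_mul_self u
  rw [h, normSq_eq_norm_mul_self, neg_mul, neg_eq_iff_eq_neg] at h1
  have hn : ‖u‖ ≠ 0 := norm_ne_zero_iff.2 h0
  rw [smul_mul_smul_comm, h1, smul_neg, smul_coe]
  congr 1
  field_simp
  rfl

theorem exists_q (φ : ℍ[ℝ] →ₗ[ℝ] ℍ[ℝ]) (h : Nonstandard φ) :
    ∃ q : ℍ[ℝ], q * q = -1 ∧ star q = -q ∧ ∀ x, φ x = -(q * star x * q) := by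
  obtain ⟨hm, hi, x0, hx0⟩ := h
  have h1 : φ 1 = 1 := by
    have := hm 1 (φ 1)
    rw [one_mul, hi, one_mul] at this
    exact this.symm
  let I : ℍ[ℝ] := ⟨0, 1, 0, 0⟩
  let J : ℍ[ℝ] := ⟨0, 0, 1, 0⟩
  let K : ℍ[ℝ] := ⟨0, 0, 0, 1⟩
  have II : I * I = -1 := by ext <;> simp [I]
  have JJ : J * J = -1 := by ext <;> simp [J]
  have KK : K * K = -1 := by ext <;> simp [K]
  have IJ : I * J = K := by ext <;> simp [I, J, K]
  have JI : J * I = -K := by ext <;> simp [I, J, K]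
  have JK : J * K = I := by ext <;> simp [I, J, K]
  have KJ : K * J = -I := by ext <;> simp [I, J, K]
  have KI : K * I = J := by ext <;> simp [I, J, K]
  have IK : I * K = -J := by ext <;> simp [I, J, K]
  let U : ℍ[ℝ] → ℍ[ℝ] := fun c => c + φ I * c * I + φ J * c * J + φ K * c * K
  have key : ∀ c x, φ x * U c = U c * star x := by
    intro c x
    have hx : x = x.re • (1 : ℍ[ℝ]) + x.imI • I + x.imJ • J + x.imK • K := by
      ext <;> simp [I, J, K]
    have hx' : star x = x.re • (1 : ℍ[ℝ]) - x.imI • I - x.imJ • J - x.imK • K := by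
      ext <;> simp [I, J, K]
    have e1 : φ I * U c = -(U c * I) := by
      simp only [U, mul_add, add_mul, ← mul_assoc, ← hm, II, JI, KI, map_neg, h1]
      simp only [mul_assoc, II, JI, KI]
      noncomm_ring
    have e2 : φ J * U c = -(U c * J) := by
      simp only [U, mul_add, add_mul, ← mul_assoc, ← hm, IJ, JJ, KJ, map_neg, h1]
      simp only [mul_assoc, IJ, JJ, KJ]
      noncomm_ring
    have e3 : φ K * U c = -(U c * K) := by
      simp only [U, mul_add, add_mul, ← mul_assoc, ← hm, IK, JK, KK, map_neg, h1]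
      simp only [mul_assoc, IK, JK, KK]
      noncomm_ring
    rw [hx']
    conv_lhs => rw [hx]
    simp only [map_add, map_smul, h1, add_mul, smul_mul_assoc, e1, e2, e3, mul_sub, mul_smul_comm,
      one_mul, mul_one, smul_neg]
    abel
  obtain ⟨c, hc⟩ : ∃ c, U c ≠ 0 := by
    by_contra hc
    push Not at hc
    have : U 1 - U I * I - U J * J - U K * K = (4 : ℝ) • (1 : ℍ[ℝ]) := by
      simp only [U, add_mul, mul_assoc, II, JJ, KK, IJ, JI, JK, KJ, KI, IK, neg_mul, mul_neg,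
        one_mul, neg_neg]
      module
    simp only [hc, zero_mul, sub_zero] at this
    simpa using congrArg QuaternionAlgebra.re this
  set u := U c
  have hu : ∀ x, φ x * u = u * star x := key c
  have hs : star u = -u := by
    rw [Quaternion.star_eq_neg]
    by_contra hr
    apply hx0
    have a1 := hu (φ x0)
    have a2 := congrArg star (hu x0)
    rw [hi] at a1
    rw [star_mul, star_mul, star_star] at a2
    have a3 : x0 * (u + star u) = (u + star u) * star (φ x0) := by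
      rw [mul_add, add_mul, a1, a2]
    rw [self_add_star', ← coe_commutes] at a3
    have a4 : ((2 * u.re : ℝ) : ℍ[ℝ]) ≠ 0 := by
      intro h
      apply hr
      simpa using congrArg QuaternionAlgebra.re h
    rw [← star_star (φ x0), ← mul_left_cancel₀ a4 a3]
  have hq := unit_of_pure u hc hs
  refine ⟨_, hq, by rw [Quaternion.star_smul, hs]; simp, fun x => ?_⟩
  have : φ x * (‖u‖⁻¹ • u) = (‖u‖⁻¹ • u) * star x := by
    rw [mul_smul_comm, smul_mul_assoc, hu]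
  rw [← this, mul_assoc, hq]
  simp

theorem exists_u (q : ℍ[ℝ]) (hq : q * q = -1) (hs : star q = -q) :
    ∃ u : ℍ[ℝ], u * u = -1 ∧ star u = -u ∧ q * u = -(u * q) := by
  obtain ⟨w, hw, h0⟩ : ∃ w : ℍ[ℝ], star w = -w ∧ q * w - w * q ≠ 0 := by
    by_contra hc
    push Not at hc
    have h1 := hc ⟨0, 1, 0, 0⟩ (by ext <;> simp)
    have h2 := hc ⟨0, 0, 1, 0⟩ (by ext <;> simp)
    have h3 := Quaternion.star_eq_neg.1 hs
    obtain ⟨a, b, c, d⟩ := q
    simp only [Quaternion.ext_iff] at h1 h2 hq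
    simp at h1 h2 hq h3
    obtain ⟨rfl, h1⟩ := h1
    obtain rfl : c = 0 := by linarith
    simp_all
  have h1 : star (q * w - w * q) = -(q * w - w * q) := by
    simp only [star_sub, star_mul, hs, hw]
    noncomm_ring
  refine ⟨_, unit_of_pure _ h0 h1, by rw [Quaternion.star_smul, h1, smul_neg], ?_⟩
  rw [mul_smul_comm, smul_mul_assoc, ← smul_neg]
  congr 1
  rw [mul_sub, sub_mul, ← mul_assoc, hq, mul_assoc w, hq]
  noncomm_ring

theorem exists_mu (q u β : ℍ[ℝ]) (hq : q * q = -1) (hu : u * u = -1)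
    (hqu : q * u = -(u * q)) (h0 : β ≠ 0) (hβ : star β = -β) :
    ∃ μ : ℍ[ℝ], μ ≠ 0 ∧ star μ * q * μ = β := by
  have hb := unit_of_pure β h0 hβ
  have hn : 0 < ‖β‖ := norm_pos_iff.2 h0
  set b := ‖β‖⁻¹ • β with hbd
  obtain ⟨ν, hν, h⟩ : ∃ ν : ℍ[ℝ], ν ≠ 0 ∧ q * ν = ν * b := by
    by_cases h : q + b = 0
    · exact ⟨u, by rintro rfl; simp at hu, by rw [hqu, eq_neg_of_add_eq_zero_right h, mul_neg]⟩
    · exact ⟨q + b, h, by rw [mul_add, add_mul, hq, hb, add_comm]⟩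
  have hν' : 0 < ‖ν‖ := norm_pos_iff.2 hν
  refine ⟨(√‖β‖ / ‖ν‖) • ν, smul_ne_zero (by positivity) hν, ?_⟩
  rw [Quaternion.star_smul, smul_mul_assoc, smul_mul_smul_comm, mul_assoc, h, ← mul_assoc,
    star_mul_self, normSq_eq_norm_mul_self, coe_mul_eq_smul, hbd, smul_smul, smul_smul]
  convert one_smul ℝ β
  field_simp
  rw [Real.sq_sqrt hn.le]

theorem comm_star {q u z : ℍ[ℝ]} (hq : q * q = -1) (hu' : star u = -u) (hqu : q * u = -(u * q))
    (hz : q * z = z * q) : u * z = star z * u := by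
  have h1 : star (u * z - star z * u) = u * z - star z * u := by
    rw [star_sub, star_mul, star_mul, star_star, hu']
    noncomm_ring
  have hz' : q * star z = star z * q := by
    rw [← sub_eq_iff_eq_add'.2 (self_add_star' z).symm, mul_sub, sub_mul, hz, coe_commutes]
  have h2 : q * (u * z - star z * u) = -((u * z - star z * u) * q) := by
    rw [mul_sub, sub_mul, ← mul_assoc, hqu, ← mul_assoc, hz', mul_assoc (star z), hqu,
      mul_assoc u z, ← hz]
    noncomm_ring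
  rw [Quaternion.star_eq_self.1 h1, coe_commutes, eq_neg_iff_add_eq_zero, ← mul_add,
    mul_eq_zero] at h2
  rcases h2 with rfl | h2
  · simp at hq
  · rw [← sub_eq_zero, Quaternion.star_eq_self.1 h1]
    have := congrArg QuaternionAlgebra.re h2
    simp only [re_add, re_coe, re_zero, add_self_eq_zero] at this
    rw [this]
    rfl

theorem decomp {q z : ℍ[ℝ]} (hq : q * q = -1) (hs : star q = -q) (hz : q * z = z * q) :
    ∃ a b : ℝ, z = a • 1 + b • q := by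
  have h1 : star (z.im * q) = z.im * q := by
    rw [star_mul, hs, Quaternion.star_eq_neg.2 (re_im z), neg_mul_neg, ← sub_re_self, mul_sub,
      sub_mul, hz, coe_commutes]
  refine ⟨z.re, -(z.im * q).re, ?_⟩
  rw [neg_smul, ← coe_mul_eq_smul _ q, ← Quaternion.star_eq_self.1 h1, mul_assoc, hq]
  ext <;> simp

theorem line {a b c : ℍ[ℝ]} {S : Set ℍ[ℝ]} (hS : Bornology.IsBounded S)
    (h : ∀ t : ℝ, a + t • b + (t * t) • c ∈ S) : b = 0 ∧ c = 0 := by
  obtain ⟨M, hM⟩ := hS.exists_norm_le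
  have key : ∀ v : ℍ[ℝ], (∀ t : ℝ, 0 < t → ‖t • v‖ ≤ M + ‖a‖) → v = 0 := by
    intro v hv
    by_contra h0
    have hn : 0 < ‖v‖ := norm_pos_iff.2 h0
    have hM0 : 0 ≤ M + ‖a‖ := (norm_nonneg _).trans (hv 1 one_pos)
    have := hv ((M + ‖a‖ + 1) / ‖v‖) (by positivity)
    rw [norm_smul, Real.norm_of_nonneg (by positivity), div_mul_cancel₀ _ hn.ne'] at this
    linarith
  have hc : c = 0 := key c fun t ht => by
    have h1 := hM _ (h √t)
    have h2 := hM _ (h (-√t))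
    rw [neg_mul_neg] at h2
    rw [Real.mul_self_sqrt ht.le] at h1 h2
    have e : t • c = (1 / 2 : ℝ) • ((a + √t • b + t • c) + (a + -√t • b + t • c)) - a := by module
    rw [e]
    refine (norm_sub_le _ _).trans ?_
    rw [norm_smul]
    have := norm_add_le (a + √t • b + t • c) (a + -√t • b + t • c)
    norm_num at *
    linarith
  refine ⟨key b fun t _ => ?_, hc⟩
  have h1 := hM _ (h t)
  rw [hc, smul_zero, add_zero] at h1
  have := norm_sub_le (a + t • b) a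
  rw [add_sub_cancel_left] at this
  linarith

noncomputable def F {n : ℕ} (φ : ℍ[ℝ] →ₗ[ℝ] ℍ[ℝ]) (A : Matrix (Fin n) (Fin n) ℍ[ℝ]) (x y : Fin n → ℍ[ℝ]) :
    ℍ[ℝ] := ∑ p, ∑ r, φ (x p) * A p r * y r

section

variable {n : ℕ} (φ : ℍ[ℝ] →ₗ[ℝ] ℍ[ℝ]) (A : Matrix (Fin n) (Fin n) ℍ[ℝ])

theorem F_add_l (x x' y : Fin n → ℍ[ℝ]) : F φ A (x + x') y = F φ A x y + F φ A x' y := by
  simp [F, add_mul, Finset.sum_add_distrib]

theorem F_add_r (x y y' : Fin n → ℍ[ℝ]) : F φ A x (y + y') = F φ A x y + F φ A x y' := by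
  simp [F, mul_add, Finset.sum_add_distrib]

theorem F_smul_l (t : ℝ) (x y : Fin n → ℍ[ℝ]) : F φ A (t • x) y = t • F φ A x y := by
  simp [F, Finset.smul_sum]

theorem F_smul_r (t : ℝ) (x y : Fin n → ℍ[ℝ]) : F φ A x (t • y) = t • F φ A x y := by
  simp [F, Finset.smul_sum]

theorem F_single (p r : Fin n) (a b : ℍ[ℝ]) :
    F φ A (Pi.single p a) (Pi.single r b) = φ a * A p r * b := by
  rw [F, Finset.sum_eq_single p, Finset.sum_eq_single r] <;> simp +contextual [Pi.single_apply]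

theorem F_one (x : Fin n → ℍ[ℝ]) : F φ 1 x x = ∑ p, φ (x p) * x p := by
  simp [F, Matrix.one_apply]

theorem F_line {α : ℍ[ℝ]} (h : Bornology.IsBounded (W φ α A)) (x y : Fin n → ℍ[ℝ])
    (hx : F φ 1 x x = α) (hxy : F φ 1 x y + F φ 1 y x = 0) (hy : F φ 1 y y = 0) :
    F φ A x y + F φ A y x = 0 ∧ F φ A y y = 0 := by
  have e : ∀ (B : Matrix (Fin n) (Fin n) ℍ[ℝ]) (t : ℝ), F φ B (x + t • y) (x + t • y) =
      F φ B x x + t • (F φ B x y + F φ B y x) + (t * t) • F φ B y y := by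
    intro B t
    simp only [F_add_l, F_add_r, F_smul_l, F_smul_r]
    module
  refine line (a := F φ A x x) h fun t => ⟨x + t • y, ?_, (e A t).symm⟩
  rw [← F_one, e, hx, hxy, hy]
  simp

end

structure Dat (φ : ℍ[ℝ] →ₗ[ℝ] ℍ[ℝ]) (α : ℍ[ℝ]) where
  q : ℍ[ℝ]
  u : ℍ[ℝ]
  μ : ℍ[ℝ]
  hq : q * q = -1
  hs : star q = -q
  hφ : ∀ x, φ x = -(q * star x * q)
  hu : u * u = -1
  hu' : star u = -u
  hqu : q * u = -(u * q)
  μ0 : μ ≠ 0
  hμ : φ μ * μ = α
  hm : ∀ x y, φ (x * y) = φ y * φ x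
  hi : ∀ x, φ (φ x) = x

theorem dat {φ : ℍ[ℝ] →ₗ[ℝ] ℍ[ℝ]} (h : Nonstandard φ) {α : ℍ[ℝ]} (h0 : α ≠ 0) (hα : φ α = α) :
    Nonempty (Dat φ α) := by
  obtain ⟨q, hq, hs, hφ⟩ := exists_q φ h
  obtain ⟨u, hu, hu', hqu⟩ := exists_u q hq hs
  have hq0 : q ≠ 0 := by rintro rfl; simp at hq
  obtain ⟨μ, h1, h2⟩ := exists_mu q u (q * α) hq hu hqu (mul_ne_zero hq0 h0) (by
    conv_rhs => rw [← hα, hφ, mul_neg, neg_neg, ← mul_assoc, ← mul_assoc, hq]
    rw [star_mul, hs]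
    simp)
  refine ⟨⟨q, u, μ, hq, hs, hφ, hu, hu', hqu, h1, ?_, h.1, h.2.1⟩⟩
  rw [hφ, neg_mul, mul_assoc, mul_assoc, ← mul_assoc (star μ), h2, ← mul_assoc, hq]
  simp

variable {φ : ℍ[ℝ] →ₗ[ℝ] ℍ[ℝ]} {α : ℍ[ℝ]} (D : Dat φ α)

theorem Dat.q0 : D.q ≠ 0 := by
  intro h
  simpa [h] using D.hq

theorem Dat.φq : φ D.q = -D.q := by
  rw [D.hφ, D.hs, mul_neg, D.hq]
  simp

theorem Dat.φu : φ D.u = D.u := by
  rw [D.hφ, D.hu', mul_neg, D.hqu, neg_neg, mul_assoc, D.hq]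
  simp

include D in
theorem Dat.φ0 {x : ℍ[ℝ]} (h : x ≠ 0) : φ x ≠ 0 := fun h' => h (by rw [← D.hi x, h', map_zero])

theorem Dat.comm_iff (z : ℍ[ℝ]) : φ z = star z ↔ D.q * z = z * D.q := by
  have : D.q * z = z * D.q ↔ D.q * star z = star z * D.q := by
    rw [← star_inj, star_mul, star_mul, D.hs, mul_neg, neg_mul, neg_inj, eq_comm]
  rw [this, D.hφ]
  constructor
  · intro h
    conv_lhs => rw [← h, mul_neg, ← mul_assoc, ← mul_assoc, D.hq]
    simp
  · intro h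
    rw [h, mul_assoc, D.hq]
    simp

variable {n : ℕ} {A : Matrix (Fin n) (Fin n) ℍ[ℝ]}

include D in
theorem Dat.pair1 (h : Bornology.IsBounded (W φ α A)) {p r : Fin n} (hpr : p ≠ r) (v : ℍ[ℝ])
    (hv : φ v = v) (hv2 : v * v = -1) : A p p + A p r * v + v * A r p + v * A r r * v = 0 := by
  have hc : D.q * D.μ ≠ 0 := mul_ne_zero D.q0 D.μ0
  have := (F_line φ A h (Pi.single p D.μ)
    (Pi.single p (D.q * D.μ) + Pi.single r (v * (D.q * D.μ))) (by simp [F_single, D.hμ])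
    (by simp [F_single, F_add_l, F_add_r, hpr, hpr.symm, D.hm, D.φq, mul_assoc])
    (by
      simp only [F_single, F_add_l, F_add_r, Matrix.one_apply_eq, Matrix.one_apply_ne hpr,
        Matrix.one_apply_ne hpr.symm, D.hm v, hv, mul_one, mul_assoc]
      rw [← mul_assoc v v, hv2]
      simp)).2
  simp only [F_single, F_add_l, F_add_r, D.hm v, hv] at this
  apply mul_left_cancel₀ (D.φ0 hc)
  apply mul_right_cancel₀ hc
  rw [mul_zero, zero_mul, ← this]
  noncomm_ring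

theorem Dat.pair (h : Bornology.IsBounded (W φ α A)) {p r : Fin n} (hpr : p ≠ r) :
    D.q * A r r = A r r * D.q ∧ D.q * A p r = A p r * D.q ∧ A r p = -star (A p r) ∧
      A p p = star (A r r) := by
  have key : ∀ v, φ v = v → v * v = -1 →
      A p p + v * A r r * v = 0 ∧ A p r * v + v * A r p = 0 := by
    intro v hv hv2
    have h1 := D.pair1 h hpr v hv hv2
    have h2 := D.pair1 h hpr (-v) (by rw [map_neg, hv]) (by rw [neg_mul_neg, hv2])
    simp only [mul_neg, neg_mul, neg_neg] at h2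
    constructor <;> apply smul_right_injective ℍ[ℝ] (two_ne_zero (α := ℝ)) <;>
      simp only [smul_zero]
    · linear_combination (norm := module) h1 + h2
    · linear_combination (norm := module) h1 - h2
  have hu0 : D.u ≠ 0 := fun h => by simpa [h] using D.hu
  have huq : D.u * D.q = -(D.q * D.u) := by rw [D.hqu, neg_neg]
  obtain ⟨a1, a2⟩ := key D.u D.φu D.hu
  obtain ⟨b1, b2⟩ := key (D.q * D.u) (by rw [D.hm, D.φu, D.φq, mul_neg, D.hqu])
    (by rw [mul_assoc, ← mul_assoc D.u, huq, neg_mul, mul_assoc, D.hu]; simp [D.hq])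
  have c1 : D.q * A r r = A r r * D.q := by
    have e : D.u * A r r * D.u = D.q * D.u * A r r * (D.q * D.u) :=
      add_left_cancel (a1.trans b1.symm)
    rw [← mul_assoc _ D.q, D.hqu, neg_mul, neg_mul] at e
    have e2 := mul_right_cancel₀ hu0 e
    rw [mul_assoc, mul_assoc, ← mul_neg] at e2
    conv_lhs => rw [mul_left_cancel₀ hu0 e2, mul_neg, ← mul_assoc, D.hq]
    simp
  have c2 : D.q * A p r = A p r * D.q := by
    apply mul_right_cancel₀ hu0
    rw [mul_assoc, mul_assoc, eq_neg_of_add_eq_zero_left a2, eq_neg_of_add_eq_zero_left b2,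
      mul_neg, mul_assoc]
  refine ⟨c1, c2, ?_, ?_⟩
  · apply mul_left_cancel₀ hu0
    have c3 := (D.comm_iff (star (A p r))).1 (by
      rw [D.hφ, star_star, c2, mul_assoc, D.hq]; simp)
    rw [mul_neg, comm_star D.hq D.hu' D.hqu c3, star_star]
    exact eq_neg_of_add_eq_zero_right a2
  · rw [eq_neg_of_add_eq_zero_left a1, comm_star D.hq D.hu' D.hqu c1, mul_assoc, D.hu]
    simp

include D in
theorem Dat.off (h : Bornology.IsBounded (W φ α A)) {p r s : Fin n} (hpr : p ≠ r) (hsp : s ≠ p)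
    (hsr : s ≠ r) : A s p = 0 := by
  have key : ∀ c v, φ v = v → v * v = -1 → φ D.μ * A s p * c + φ D.μ * A s r * (v * c) +
      (φ c * A p s * D.μ + φ c * v * A r s * D.μ) = 0 := by
    intro c v hv hv2
    have := (F_line φ A h (Pi.single s D.μ) (Pi.single p c + Pi.single r (v * c))
      (by simp [F_single, D.hμ])
      (by simp [F_single, F_add_l, F_add_r, hsp, hsp.symm, hsr, hsr.symm])
      (by
        simp only [F_single, F_add_l, F_add_r, Matrix.one_apply_eq, Matrix.one_apply_ne hpr,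
          Matrix.one_apply_ne hpr.symm, D.hm v, hv, mul_one, mul_assoc]
        rw [← mul_assoc v v, hv2]
        simp)).1
    simpa only [F_single, F_add_l, F_add_r, D.hm v, hv] using this
  by_contra h0
  have h1 : φ D.μ * A s p ≠ 0 := mul_ne_zero (D.φ0 D.μ0) h0
  obtain ⟨c, hc⟩ : ∃ c, φ D.μ * A s p * c = D.q := ⟨_, mul_inv_cancel_left₀ h1 _⟩
  have k1 := key c D.u D.φu D.hu
  have k2 := key c (-D.u) (by rw [map_neg, D.φu]) (by rw [neg_mul_neg, D.hu])
  obtain ⟨-, c2, c3, -⟩ := D.pair h hsp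
  have k3 : φ c * A p s * D.μ = D.q := by
    rw [c3, ← (D.comm_iff _).2 c2, ← neg_neg D.q, ← D.φq, ← hc, D.hm, D.hm, D.hi]
    noncomm_ring
  simp only [mul_neg, neg_mul, hc, k3] at k1 k2
  apply D.q0
  apply smul_right_injective ℍ[ℝ] (four_ne_zero (α := ℝ))
  simp only [smul_zero]
  linear_combination (norm := module) k1 + k2

theorem ident (q x y : ℍ[ℝ]) (hq : q * q = -1) (hs : star q = -q) :
    normSq (star x * q * x + star y * q * y) = (normSq x - normSq y) ^ 2 +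
      (2 * (star x * y).re) ^ 2 + (2 * (star x * q * y).re) ^ 2 := by
  have h0 := Quaternion.star_eq_neg.1 hs
  have h1 := congrArg QuaternionAlgebra.re hq
  obtain ⟨q0, q1, q2, q3⟩ := q
  obtain ⟨x0, x1, x2, x3⟩ := x
  obtain ⟨y0, y1, y2, y3⟩ := y
  obtain rfl : q0 = 0 := h0
  simp at h1
  simp [normSq_def']
  linear_combination (-((x0 ^ 2 + x1 ^ 2 + x2 ^ 2 + x3 ^ 2 - (y0 ^ 2 + y1 ^ 2 + y2 ^ 2 + y3 ^ 2)) ^ 2
    + (2 * (x0 * y0 + x1 * y1 + x2 * y2 + x3 * y3)) ^ 2)) * h1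

theorem Dat.norm_q : ‖D.q‖ = 1 := by
  have := congrArg norm D.hq
  rw [norm_mul, norm_neg, norm_one] at this
  nlinarith [norm_nonneg D.q]

include D in
theorem Dat.two (A : Matrix (Fin 2) (Fin 2) ℍ[ℝ]) (h1 : φ (A 0 0) = star (A 0 0))
    (h2 : φ (A 0 1) = star (A 0 1)) (h3 : A 1 0 = -star (A 0 1)) (h4 : A 1 1 = star (A 0 0)) :
    Bornology.IsBounded (W φ α A) := by
  obtain ⟨a, b, hd⟩ := decomp D.hq D.hs ((D.comm_iff _).1 h1)
  obtain ⟨c, d, hc⟩ := decomp D.hq D.hs ((D.comm_iff _).1 h2)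
  refine isBounded_iff_forall_norm_le.2 ⟨(|a| + |b| + |c| + |d|) * ‖α‖, ?_⟩
  rintro _ ⟨x, hx, rfl⟩
  simp only [Fin.sum_univ_two] at hx ⊢
  have e0 : star (x 0) * D.q * x 0 + star (x 1) * D.q * x 1 = D.q * α := by
    rw [← congrArg (D.q * ·) hx, D.hφ, D.hφ]
    simp only [mul_add, neg_mul, mul_neg, ← mul_assoc, D.hq]
    simp
  have id := ident D.q (x 0) (x 1) D.hq D.hs
  rw [e0, normSq_eq_norm_mul_self, norm_mul, D.norm_q, one_mul] at id
  have b1 : |normSq (x 0) - normSq (x 1)| ≤ ‖α‖ :=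
    abs_le_of_sq_le_sq' (by nlinarith [sq_nonneg (2 * (star (x 0) * x 1).re), sq_nonneg (2 * (star (x 0) * D.q * x 1).re)]) (norm_nonneg _) |> abs_le.2
  have b2 : |2 * (star (x 0) * x 1).re| ≤ ‖α‖ :=
    abs_le_of_sq_le_sq' (by nlinarith [sq_nonneg (normSq (x 0) - normSq (x 1)), sq_nonneg (2 * (star (x 0) * D.q * x 1).re)]) (norm_nonneg _) |> abs_le.2
  have b3 : |2 * (star (x 0) * D.q * x 1).re| ≤ ‖α‖ :=
    abs_le_of_sq_le_sq' (by nlinarith [sq_nonneg (normSq (x 0) - normSq (x 1)), sq_nonneg (2 * (star (x 0) * x 1).re)]) (norm_nonneg _) |> abs_le.2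
  have f1 : ∀ y z : ℍ[ℝ], φ y * D.q * z = D.q * (star y * z) := by
    intro y z
    rw [D.hφ, neg_mul, mul_assoc _ D.q, D.hq]
    simp [mul_assoc]
  have e : φ (x 0) * A 0 0 * x 0 + φ (x 0) * A 0 1 * x 1 +
      (φ (x 1) * A 1 0 * x 0 + φ (x 1) * A 1 1 * x 1) =
      a • α + (b * (normSq (x 0) - normSq (x 1))) • D.q -
        (c * (2 * (star (x 0) * D.q * x 1).re)) • D.q +
        (d * (2 * (star (x 0) * x 1).re)) • D.q := by
    have g1 : (normSq (x 0) - normSq (x 1)) • D.q =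
        φ (x 0) * D.q * x 0 - φ (x 1) * D.q * x 1 := by
      rw [f1, f1, star_mul_self, star_mul_self, mul_coe_eq_smul, mul_coe_eq_smul, sub_smul]
    have g2 : (2 * (star (x 0) * x 1).re) • D.q =
        φ (x 0) * D.q * x 1 + φ (x 1) * D.q * x 0 := by
      rw [f1, f1, ← mul_coe_eq_smul, ← self_add_star', star_mul, star_star, mul_add]
    have g3 : (2 * (star (x 0) * D.q * x 1).re) • D.q = φ (x 1) * x 0 - φ (x 0) * x 1 := by
      rw [D.hφ, D.hφ, ← mul_coe_eq_smul, ← self_add_star', star_mul, star_mul, star_star, D.hs]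
      noncomm_ring
    rw [mul_smul, mul_smul c, mul_smul d, g1, g2, g3, h3, h4, hd, hc, ← congrArg (a • ·) hx]
    simp only [star_add, Quaternion.star_smul, star_one, D.hs, mul_add, add_mul, mul_smul_comm,
      smul_mul_assoc, mul_one, mul_neg, neg_mul, smul_neg, neg_add]
    module
  rw [e]
  refine (norm_add_le _ _).trans ((add_le_add_left ((norm_sub_le _ _).trans
    (add_le_add_left (norm_add_le _ _) _)) _).trans ?_)
  simp only [norm_smul, D.norm_q, mul_one, Real.norm_eq_abs, abs_mul b, abs_mul c, abs_mul d]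
  nlinarith [mul_le_mul_of_nonneg_left b1 (abs_nonneg b), mul_le_mul_of_nonneg_left b2 (abs_nonneg d),
    mul_le_mul_of_nonneg_left b3 (abs_nonneg c)]

theorem result (φ : ℍ[ℝ] →ₗ[ℝ] ℍ[ℝ]) (hφ : Nonstandard φ) (α : ℍ[ℝ]) (h0 : α ≠ 0)
    (hα : φ α = α) :
    (∀ A : Matrix (Fin 1) (Fin 1) ℍ[ℝ], Bornology.IsBounded (W φ α A)) ∧
    (∀ A : Matrix (Fin 2) (Fin 2) ℍ[ℝ], Bornology.IsBounded (W φ α A) ↔
      φ (A 0 0) = star (A 0 0) ∧ φ (A 0 1) = star (A 0 1) ∧ A 1 0 = -star (A 0 1) ∧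
        A 1 1 = star (A 0 0)) ∧
    ∀ n, 3 ≤ n → ∀ A : Matrix (Fin n) (Fin n) ℍ[ℝ],
      Bornology.IsBounded (W φ α A) ↔ ∃ a : ℝ, A = a • 1 := by
  obtain ⟨D⟩ := dat hφ h0 hα
  refine ⟨fun A => ?_, fun A => ⟨fun h => ?_, fun h => D.two A h.1 h.2.1 h.2.2.1 h.2.2.2⟩,
    fun n hn A => ⟨fun h => ?_, ?_⟩⟩
  · refine isBounded_iff_forall_norm_le.2 ⟨‖A 0 0‖ * ‖α‖, ?_⟩
    rintro _ ⟨x, rfl, rfl⟩
    simp only [Fin.sum_univ_one, norm_mul]
    exact le_of_eq (by ring)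
  · obtain ⟨-, c2, c3, -⟩ := D.pair h (p := 0) (r := 1) (by decide)
    obtain ⟨c1, -, -, c4⟩ := D.pair h (p := 1) (r := 0) (by decide)
    exact ⟨(D.comm_iff _).2 c1, (D.comm_iff _).2 c2, c3, c4⟩
  · have third : ∀ p r : Fin n, ∃ s, s ≠ p ∧ s ≠ r := by
      intro p r
      obtain ⟨s, -, hs⟩ := Finset.exists_mem_notMem_of_card_lt_card (s := {p, r})
        (t := Finset.univ) (lt_of_le_of_lt Finset.card_le_two (by simp; omega))
      exact ⟨s, by simpa using hs⟩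
    have diag : ∀ p r, A p p = A r r := by
      intro p r
      obtain ⟨s, h1, h2⟩ := third p r
      rw [(D.pair h h1.symm).2.2.2, (D.pair h h2.symm).2.2.2]
    let o : Fin n := ⟨0, by omega⟩
    have hre : star (A o o) = A o o := by
      obtain ⟨s, h1, -⟩ := third o o
      rw [← (D.pair h h1).2.2.2, diag s o]
    refine ⟨(A o o).re, Matrix.ext fun s p => ?_⟩
    by_cases hsp : s = p
    · rw [hsp, diag p o, Matrix.smul_apply, Matrix.one_apply_eq, ← coe_mul_eq_smul, mul_one]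
      exact Quaternion.star_eq_self.1 hre
    · obtain ⟨r, h1, h2⟩ := third p s
      rw [D.off h h1.symm hsp h2.symm]
      simp [hsp]
  · rintro ⟨a, rfl⟩
    refine (Bornology.isBounded_singleton (x := a • α)).subset ?_
    rintro _ ⟨x, rfl, rfl⟩
    simp [Matrix.one_apply, Finset.smul_sum]

end Pool.Agent.Results.MP_dceaed_al.Bounded
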